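import Mathlib

set_option autoImplicit false

namespace Pool.Agent.Work.MP_3411af_co

/-- the plane -/
abbrev E2 := EuclideanSpace ℝ (Fin 2)

/-- the disjoint union of stars: centres `(P, none)`, leaves `(P, some Q)` -/
def starGraph (K D : Type) : SimpleGraph (K × Option D) where
  Adj a b := a.1 = b.1 ∧ ((a.2 = none ∧ b.2 ≠ none) ∨ (a.2 ≠ none ∧ b.2 = none))
  symm := ⟨fun a b h ↦ ⟨h.1.symm, h.2.symm.imp (fun h ↦ ⟨h.2, h.1⟩) (fun h ↦ ⟨h.2, h.1⟩)⟩⟩
  loopless := ⟨fun a h ↦ by
    rcases h.2 with h | h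
    · exact h.2 h.1
    · exact h.1 h.2⟩

lemma lineMap_segment_aux {c a b x : E2} {r s : ℝ} (ha : AffineMap.lineMap c x r = a)
    (hb : AffineMap.lineMap c x s = b) (hs : s ≠ 0) (h0 : 0 ≤ r / s) (h1 : r / s ≤ 1) :
    a ∈ segment ℝ c b := by
  rw [segment_eq_image_lineMap]
  refine ⟨r / s, ⟨h0, h1⟩, ?_⟩
  rw [← ha, ← hb]
  simp only [AffineMap.lineMap_apply, vsub_eq_sub, vadd_eq_add, add_sub_cancel_right, smul_smul]
  rw [div_mul_cancel₀ _ hs]

open Classical in
/-- lower bound on the number of lines covering a straight-line drawing of a star forest -/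
theorem line_lower {K D : Type} [Fintype K] [Fintype D] {k : ℕ} (L : Fin k → Set E2)
    (hL : ∀ i, ∃ x y : E2, x ≠ y ∧ L i = ((line[ℝ, x, y] : AffineSubspace ℝ E2) : Set E2))
    (p : K × Option D → E2) (hp : Function.Injective p)
    (hcov : ∀ P Q, ∃ i, segment ℝ (p (P, none)) (p (P, some Q)) ⊆ L i)
    (hno : ∀ P Q Q', Q' ≠ Q → p (P, some Q') ∉ segment ℝ (p (P, none)) (p (P, some Q))) :
    Fintype.card K * Fintype.card D ≤ 2 * k + Fintype.card K * Fintype.card K := by
  choose idx hidx using hcov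
  -- the set of lines at a centre
  let 𝓛 : K → Finset (Set E2) := fun P ↦ Finset.univ.image (fun Q : D ↦ L (idx P Q))
  have hcmem : ∀ P, ∀ ℓ ∈ 𝓛 P, p (P, none) ∈ ℓ := by
    intro P ℓ hℓ
    obtain ⟨Q, -, rfl⟩ := Finset.mem_image.1 hℓ
    exact hidx P Q (left_mem_segment ℝ _ _)
  have hline : ∀ P, ∀ ℓ ∈ 𝓛 P, ∃ x y : E2, x ≠ y ∧
      ℓ = ((line[ℝ, x, y] : AffineSubspace ℝ E2) : Set E2) := by
    intro P ℓ hℓ
    obtain ⟨Q, -, rfl⟩ := Finset.mem_image.1 hℓ
    exact hL _
  -- at most two leaves on one line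
  have hfib : ∀ P, ∀ ℓ ∈ 𝓛 P, (Finset.univ.filter (fun Q : D ↦ L (idx P Q) = ℓ)).card ≤ 2 := by
    intro P ℓ hℓ
    obtain ⟨Q0, -, hQ0⟩ := Finset.mem_image.1 hℓ
    obtain ⟨x, y, hxy, hℓeq⟩ := hline P ℓ hℓ
    have hc : p (P, none) ∈ (line[ℝ, x, y] : AffineSubspace ℝ E2) := by
      have := hcmem P ℓ hℓ
      rw [hℓeq] at this
      exact this
    have hmemQ : ∀ Q, L (idx P Q) = ℓ → p (P, some Q) ∈ (line[ℝ, x, y] : AffineSubspace ℝ E2) := by
      intro Q hQ
      have h1 := hidx P Q (right_mem_segment ℝ _ _)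
      rw [hQ, hℓeq] at h1
      exact h1
    have hne0 : p (P, none) ≠ p (P, some Q0) := fun h ↦ by
      have := hp h
      simp at this
    have hspan : (line[ℝ, p (P, none), p (P, some Q0)] : AffineSubspace ℝ E2) = line[ℝ, x, y] :=
      affineSpan_pair_eq_of_mem_of_mem_of_ne hc (hmemQ Q0 hQ0) hne0
    have hpar : ∀ Q, L (idx P Q) = ℓ → ∃ r : ℝ,
        AffineMap.lineMap (p (P, none)) (p (P, some Q0)) r = p (P, some Q) := by
      intro Q hQ
      have := hmemQ Q hQ
      rw [← hspan] at this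
      exact mem_affineSpan_pair_iff_exists_lineMap_eq.1 this
    choose! r hr using hpar
    have hr0 : ∀ Q, L (idx P Q) = ℓ → r Q ≠ 0 := by
      intro Q hQ h0
      have := hr Q hQ
      rw [h0, AffineMap.lineMap_apply_zero] at this
      have := hp this
      simp at this
    have hinj : Set.InjOn (fun Q ↦ decide (0 < r Q))
        ((Finset.univ.filter (fun Q : D ↦ L (idx P Q) = ℓ) : Finset D) : Set D) := by
      intro Q hQ Q' hQ' hdec
      simp only [Finset.coe_filter, Finset.mem_univ, true_and, Set.mem_ofPred_eq] at hQ hQ'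
      by_contra hne
      have hdec' : (0 < r Q) ↔ (0 < r Q') := by simpa using hdec
      have h1 := hr0 Q hQ
      have h2 := hr0 Q' hQ'
      have hpos : 0 < r Q / r Q' := by
        rcases lt_or_gt_of_ne h1 with h | h
        · have h' : r Q' < 0 := by
            rcases lt_or_gt_of_ne h2 with h'' | h''
            · exact h''
            · exact absurd (hdec'.2 h'') (by linarith)
          exact div_pos_of_neg_of_neg h h'
        · exact div_pos h (hdec'.1 h)
      have hpos' : 0 < r Q' / r Q := by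
        rw [← inv_div]; exact inv_pos.2 hpos
      rcases le_total (r Q / r Q') 1 with hle | hle
      · exact hno P Q' Q hne (lineMap_segment_aux (hr Q hQ) (hr Q' hQ') h2 hpos.le hle)
      · have hle' : r Q' / r Q ≤ 1 := by
          rw [← inv_div]; exact inv_le_one_of_one_le₀ hle
        exact hno P Q Q' (Ne.symm hne)
          (lineMap_segment_aux (hr Q' hQ') (hr Q hQ) h1 hpos'.le hle')
    calc (Finset.univ.filter (fun Q : D ↦ L (idx P Q) = ℓ)).card
        ≤ (Finset.univ : Finset Bool).card :=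
          Finset.card_le_card_of_injOn _ (fun _ _ ↦ Finset.mem_coe.2 (Finset.mem_univ _)) hinj
      _ = 2 := by simp
  have hcard : ∀ P, Fintype.card D ≤ 2 * (𝓛 P).card := by
    intro P
    have := Finset.card_le_mul_card_image (f := fun Q : D ↦ L (idx P Q)) Finset.univ 2
      (fun ℓ hℓ ↦ hfib P ℓ hℓ)
    simpa using this
  -- two centres share at most one line
  have hinter : ∀ P P', P ≠ P' → ((𝓛 P) ∩ (𝓛 P')).card ≤ 1 := by
    intro P P' hPP'
    rw [Finset.card_le_one]
    intro ℓ hℓ ℓ' hℓ'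
    rw [Finset.mem_inter] at hℓ hℓ'
    have hne : p (P, none) ≠ p (P', none) := fun h ↦ by
      have := hp h
      simp only [Prod.mk.injEq, and_true] at this
      exact hPP' this
    have key : ∀ m, m ∈ 𝓛 P → m ∈ 𝓛 P' →
        m = ((line[ℝ, p (P, none), p (P', none)] : AffineSubspace ℝ E2) : Set E2) := by
      intro m h1 h2
      obtain ⟨x, y, hxy, hm⟩ := hline P m h1
      have e1 : p (P, none) ∈ (line[ℝ, x, y] : AffineSubspace ℝ E2) := by
        have := hcmem P m h1
        rw [hm] at this; exact this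
      have e2 : p (P', none) ∈ (line[ℝ, x, y] : AffineSubspace ℝ E2) := by
        have := hcmem P' m h2
        rw [hm] at this; exact this
      rw [hm, affineSpan_pair_eq_of_mem_of_mem_of_ne e1 e2 hne]
    rw [key ℓ hℓ.1 hℓ.2, key ℓ' hℓ'.1 hℓ'.2]
  -- union bound
  have hunion : ∀ T : Finset K,
      T.card * Fintype.card D ≤ 2 * (T.biUnion 𝓛).card + T.card * T.card := by
    intro T
    induction T using Finset.induction_on with
    | empty => simp
    | insert a T ha ih =>
      rw [Finset.biUnion_insert, Finset.card_insert_of_notMem ha]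
      have h1 : (𝓛 a ∩ T.biUnion 𝓛).card ≤ T.card := by
        rw [Finset.inter_biUnion]
        calc (T.biUnion fun x ↦ 𝓛 a ∩ 𝓛 x).card ≤ ∑ x ∈ T, (𝓛 a ∩ 𝓛 x).card :=
              Finset.card_biUnion_le
          _ ≤ ∑ x ∈ T, 1 := by
              refine Finset.sum_le_sum fun x hx ↦ ?_
              exact hinter a x (fun h ↦ ha (h ▸ hx))
          _ = T.card := by simp
      have h2 := Finset.card_union_add_card_inter (𝓛 a) (T.biUnion 𝓛)
      have h3 := hcard a
      nlinarith
  have hfin := hunion Finset.univ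
  have hle : (Finset.univ.biUnion 𝓛).card ≤ k := by
    have : (Finset.univ.biUnion 𝓛) ⊆ Finset.univ.image L := by
      intro ℓ hℓ
      rw [Finset.mem_biUnion] at hℓ
      obtain ⟨P, -, hP⟩ := hℓ
      obtain ⟨Q, -, rfl⟩ := Finset.mem_image.1 hP
      exact Finset.mem_image_of_mem _ (Finset.mem_univ _)
    calc _ ≤ (Finset.univ.image L).card := Finset.card_le_card this
      _ ≤ (Finset.univ : Finset (Fin k)).card := Finset.card_image_le
      _ = k := by simp
  simp only [Finset.card_univ] at hfin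
  calc Fintype.card K * Fintype.card D
      ≤ 2 * (Finset.univ.biUnion 𝓛).card + Fintype.card K * Fintype.card K := hfin
    _ ≤ 2 * k + Fintype.card K * Fintype.card K := by gcongr

end Pool.Agent.Work.MP_3411af_co
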