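import Mathlib

set_option autoImplicit false

namespace Pool.Agent.Work.MP_3411af_co

open Filter Topology ArithmeticFunction ArithmeticFunction.vonMangoldt

/-- reciprocal of primes congruent to 3 modulo 4 -/
noncomputable def rec3 (n : ℕ) : ℝ := if n.Prime ∧ n % 4 = 3 then (1 : ℝ) / n else 0

lemma rec3_nonneg (n : ℕ) : 0 ≤ rec3 n := by
  unfold rec3; split_ifs <;> positivity

lemma cast_eq_three_iff (n : ℕ) : ((n : ZMod 4) = 3) ↔ n % 4 = 3 := by
  have h : ((3 : ℕ) : ZMod 4) = 3 := by norm_cast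
  rw [← h, ZMod.natCast_eq_natCast_iff']

lemma isUnit_three : IsUnit (3 : ZMod 4) := by
  have : (3 : ZMod 4) * 3 = 1 := by decide
  exact IsUnit.of_mul_eq_one _ this

theorem not_summable_rec3 : ¬ Summable rec3 := by
  intro H
  obtain ⟨C, hC⟩ := LSeries_residueClass_lower_bound (q := 4) isUnit_three
  have hnp := summable_residueClass_non_primes_div (q := 4) 3
  set C2 := ∑' n : ℕ, (if n.Prime then 0 else residueClass (3 : ZMod 4) n) / n with hC2
  -- summability of the L-series for x > 1
  have hsum : ∀ x : ℝ, 1 < x → Summable (fun n : ℕ ↦ residueClass (3 : ZMod 4) n / (n : ℝ) ^ x) := by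
    intro x hx
    exact LSeries.summable_real_of_abscissaOfAbsConv_lt <|
        (abscissaOfAbsConv_residueClass_le_one 3).trans_lt <| mod_cast hx
  -- prime part
  let g : ℝ → ℕ → ℝ := fun x n ↦ (if n.Prime then residueClass (3 : ZMod 4) n else 0) / (n : ℝ) ^ x
  have hg_nonneg : ∀ x n, 0 ≤ g x n := by
    intro x n
    have := residueClass_nonneg (3 : ZMod 4) n
    simp only [g]
    split_ifs <;> positivity
  have hnonprime_le : ∀ x : ℝ, 1 < x → ∀ n : ℕ,
      (if n.Prime then 0 else residueClass (3 : ZMod 4) n) / (n : ℝ) ^ x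
        ≤ (if n.Prime then 0 else residueClass (3 : ZMod 4) n) / n := by
    intro x hx n
    rcases n.eq_zero_or_pos with rfl | hn
    · simp
    · refine div_le_div_of_nonneg_left ?_ (mod_cast hn) ?_
      · have := residueClass_nonneg (3 : ZMod 4) n
        split_ifs <;> positivity
      · conv_lhs => rw [← Real.rpow_one (n : ℝ)]
        exact Real.rpow_le_rpow_of_exponent_le (by exact_mod_cast hn) hx.le
  have hnonneg2 : ∀ x : ℝ, ∀ n : ℕ,
      0 ≤ (if n.Prime then 0 else residueClass (3 : ZMod 4) n) / (n : ℝ) ^ x := by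
    intro x n
    have := residueClass_nonneg (3 : ZMod 4) n
    split_ifs <;> positivity
  have hsum2 : ∀ x : ℝ, 1 < x → Summable (fun n : ℕ ↦
      (if n.Prime then 0 else residueClass (3 : ZMod 4) n) / (n : ℝ) ^ x) := by
    intro x hx
    exact Summable.of_nonneg_of_le (hnonneg2 x) (hnonprime_le x hx) hnp
  have hsplit : ∀ x : ℝ, ∀ n : ℕ, residueClass (3 : ZMod 4) n / (n : ℝ) ^ x
      = g x n + (if n.Prime then 0 else residueClass (3 : ZMod 4) n) / (n : ℝ) ^ x := by
    intro x n
    simp only [g]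
    split_ifs <;> simp
  have hsumg : ∀ x : ℝ, 1 < x → Summable (g x) := by
    intro x hx
    have h1 := (hsum x hx).sub (hsum2 x hx)
    refine h1.congr ?_
    intro n
    rw [hsplit x n]; ring
  have hlow : ∀ x : ℝ, x ∈ Set.Ioc (1 : ℝ) 2 → (1 / 2 : ℝ) / (x - 1) - C - C2 ≤ ∑' n, g x n := by
    intro x hx
    have h1 := hC hx
    have h2 : ∑' n, residueClass (3 : ZMod 4) n / (n : ℝ) ^ x
        = ∑' n, g x n + ∑' n : ℕ, (if n.Prime then 0 else residueClass (3 : ZMod 4) n) / (n : ℝ) ^ x := by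
      rw [← (hsumg x hx.1).tsum_add (hsum2 x hx.1)]
      exact tsum_congr (hsplit x)
    have h3 : ∑' n : ℕ, (if n.Prime then 0 else residueClass (3 : ZMod 4) n) / (n : ℝ) ^ x ≤ C2 :=
      (hsum2 x hx.1).tsum_le_tsum (hnonprime_le x hx.1) hnp
    have h4 : ((Nat.totient 4 : ℕ) : ℝ)⁻¹ = 1 / 2 := by
      have : Nat.totient 4 = 2 := by decide
      rw [this]; norm_num
    rw [h4, h2] at h1
    linarith
  -- the rescaled sum tends to zero by dominated convergence
  have hgform : ∀ x : ℝ, 1 < x → ∀ n : ℕ, (x - 1) * g x n =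
      rec3 n * (((x - 1) * Real.log n) * Real.exp (-((x - 1) * Real.log n))) := by
    intro x hx n
    by_cases hn : n.Prime ∧ n % 4 = 3
    · have hpos : (0 : ℝ) < n := by exact_mod_cast hn.1.pos
      have hmem : n ∈ {m : ℕ | (m : ZMod 4) = 3} := (cast_eq_three_iff n).2 hn.2
      have h1 : residueClass (3 : ZMod 4) n = Real.log n := by
        rw [residueClass, Set.indicator_of_mem hmem, vonMangoldt_apply_prime hn.1]
      simp only [g, rec3, hn.1, hn.2, and_self, if_true, h1]
      have h2 : (n : ℝ) ^ x = n * Real.exp ((x - 1) * Real.log n) := by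
        rw [Real.rpow_def_of_pos hpos]
        conv_rhs => rw [← Real.exp_log hpos]
        rw [← Real.exp_add, Real.log_exp]
        congr 1; ring
      rw [h2, Real.exp_neg]
      field_simp
    · have h1 : g x n = 0 := by
        simp only [g]
        split_ifs with hp
        · have : n ∉ {m : ℕ | (m : ZMod 4) = 3} := fun h ↦ hn ⟨hp, (cast_eq_three_iff n).1 h⟩
          rw [residueClass, Set.indicator_of_notMem this]; simp
        · simp
      simp [h1, rec3, hn]
  have hbound : ∀ u : ℝ, 0 ≤ u → ‖u * Real.exp (-u)‖ ≤ 1 := by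
    intro u hu
    rw [Real.norm_of_nonneg (by positivity)]
    have h1 : u + 1 ≤ Real.exp u := Real.add_one_le_exp u
    rw [Real.exp_neg, ← div_eq_mul_inv, div_le_one (Real.exp_pos u)]
    linarith
  have hlim : Tendsto (fun x : ℝ ↦ ∑' n, (x - 1) * g x n) (𝓝[>] 1) (𝓝 (∑' _n : ℕ, (0 : ℝ))) := by
    refine tendsto_tsum_of_dominated_convergence (bound := rec3) H ?_ ?_
    · intro n
      have h0 : Tendsto (fun x : ℝ ↦ rec3 n * (((x - 1) * Real.log n) *
          Real.exp (-((x - 1) * Real.log n)))) (𝓝[>] 1) (𝓝 0) := by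
        have hcont : Continuous (fun x : ℝ ↦ rec3 n * (((x - 1) * Real.log n) *
          Real.exp (-((x - 1) * Real.log n)))) := by fun_prop
        have := hcont.tendsto 1
        simp only [sub_self, zero_mul, mul_zero] at this
        exact this.mono_left nhdsWithin_le_nhds
      refine h0.congr' ?_
      filter_upwards [self_mem_nhdsWithin] with x hx
      exact (hgform x hx n).symm
    · filter_upwards [self_mem_nhdsWithin] with x hx n
      rw [hgform x hx n, norm_mul, Real.norm_of_nonneg (rec3_nonneg n)]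
      have hx' : (1 : ℝ) < x := hx
      have hu : 0 ≤ (x - 1) * Real.log n :=
        mul_nonneg (by linarith) (Real.log_natCast_nonneg n)
      calc rec3 n * ‖((x - 1) * Real.log n) * Real.exp (-((x - 1) * Real.log n))‖
          ≤ rec3 n * 1 := mul_le_mul_of_nonneg_left (hbound _ hu) (rec3_nonneg n)
        _ = rec3 n := mul_one _
  rw [tsum_zero] at hlim
  have hlow2 : ∀ᶠ x : ℝ in 𝓝[>] 1, (1 / 2 : ℝ) - (x - 1) * (C + C2) ≤ ∑' n, (x - 1) * g x n := by
    have : Set.Ioc (1 : ℝ) 2 ∈ 𝓝[>] (1 : ℝ) := Ioc_mem_nhdsGT (by norm_num)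
    filter_upwards [this] with x hx
    have h1 := hlow x hx
    have hx1 : 0 < x - 1 := by linarith [hx.1]
    rw [tsum_mul_left]
    have h2 : (x - 1) * ((1 / 2 : ℝ) / (x - 1) - C - C2) ≤ (x - 1) * ∑' n, g x n :=
      mul_le_mul_of_nonneg_left h1 hx1.le
    have h3 : (x - 1) * ((1 / 2 : ℝ) / (x - 1) - C - C2) = (1 / 2 : ℝ) - (x - 1) * (C + C2) := by
      field_simp
      ring
    linarith
  have hlim2 : Tendsto (fun x : ℝ ↦ (1 / 2 : ℝ) - (x - 1) * (C + C2)) (𝓝[>] 1) (𝓝 (1 / 2)) := by
    have hcont : Continuous (fun x : ℝ ↦ (1 / 2 : ℝ) - (x - 1) * (C + C2)) := by fun_prop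
    have := hcont.tendsto 1
    simp only [sub_self, zero_mul, sub_zero] at this
    exact this.mono_left nhdsWithin_le_nhds
  have := le_of_tendsto_of_tendsto hlim2 hlim hlow2
  norm_num at this

end Pool.Agent.Work.MP_3411af_co
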