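import Mathlib
import Pool.Agent.Work.MP_3411af_co.PrimesThreeModFour

set_option autoImplicit false

namespace Pool.Agent.Work.MP_3411af_co

open Filter Topology

/-- n is not exactly divisible by any element of S -/
def Good (S : Finset ℕ) (n : ℕ) : Prop := ∀ p ∈ S, p ∣ n → p ^ 2 ∣ n

open Classical in
/-- number of n below x that are good -/
noncomputable def cnt (S : Finset ℕ) (x : ℝ) : ℕ := ((Finset.range ⌈x⌉₊).filter (Good S)).card

lemma good_mul_iff {S : Finset ℕ} {d : ℕ} (hd : ∀ p ∈ S, Nat.Coprime p d) (m : ℕ) :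
    Good S (d * m) ↔ Good S m := by
  unfold Good
  refine forall₂_congr fun p hp ↦ ?_
  have h1 : p ∣ d * m ↔ p ∣ m := (hd p hp).dvd_mul_left
  have h2 : p ^ 2 ∣ d * m ↔ p ^ 2 ∣ m := ((hd p hp).pow_left 2).dvd_mul_left
  rw [h1, h2]

open Classical in
lemma cnt_dvd {S : Finset ℕ} {d : ℕ} (hd0 : 0 < d) (hd : ∀ p ∈ S, Nat.Coprime p d) (x : ℝ) :
    ((Finset.range ⌈x⌉₊).filter (fun n ↦ Good S n ∧ d ∣ n)).card = cnt S (x / d) := by
  unfold cnt
  have hdR : (0 : ℝ) < d := by exact_mod_cast hd0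
  rw [← Finset.card_image_of_injective ((Finset.range ⌈x / d⌉₊).filter (Good S))
    (mul_right_injective₀ hd0.ne' : Function.Injective (fun m : ℕ ↦ d * m))]
  congr 1
  ext n
  simp only [Finset.mem_filter, Finset.mem_range, Finset.mem_image, Nat.lt_ceil]
  constructor
  · rintro ⟨h1, h2, ⟨m, rfl⟩⟩
    refine ⟨m, ⟨?_, (good_mul_iff hd m).1 h2⟩, rfl⟩
    rw [lt_div_iff₀ hdR]
    push_cast at h1
    linarith
  · rintro ⟨m, ⟨h1, h2⟩, rfl⟩
    refine ⟨?_, (good_mul_iff hd m).2 h2, dvd_mul_right _ _⟩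
    rw [lt_div_iff₀ hdR] at h1
    push_cast
    linarith

open Classical in
lemma cnt_insert {S : Finset ℕ} {q : ℕ} (hq : q.Prime) (hS : ∀ p ∈ S, p.Prime) (hqS : q ∉ S)
    (x : ℝ) : cnt (insert q S) x + cnt S (x / q) = cnt S x + cnt S (x / (q ^ 2 : ℕ)) := by
  have hcop : ∀ p ∈ S, Nat.Coprime p q := by
    intro p hp
    rw [Nat.coprime_primes (hS p hp) hq]
    rintro rfl
    exact hqS hp
  have hcop2 : ∀ p ∈ S, Nat.Coprime p (q ^ 2) := fun p hp ↦ (hcop p hp).pow_right 2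
  rw [← cnt_dvd hq.pos hcop, ← cnt_dvd (pow_pos hq.pos 2) hcop2]
  have h1 : (Finset.range ⌈x⌉₊).filter (Good (insert q S)) =
      (Finset.range ⌈x⌉₊).filter (fun n ↦ Good S n ∧ (q ∣ n → q ^ 2 ∣ n)) := by
    refine Finset.filter_congr fun n _ ↦ ?_
    simp only [Good, Finset.mem_insert, forall_eq_or_imp]
    tauto
  unfold cnt
  rw [h1]
  -- both sides count
  have e1 : ((Finset.range ⌈x⌉₊).filter (fun n ↦ Good S n ∧ (q ∣ n → q ^ 2 ∣ n))) =
      ((Finset.range ⌈x⌉₊).filter (fun n ↦ Good S n ∧ ¬ q ∣ n)) ∪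
      ((Finset.range ⌈x⌉₊).filter (fun n ↦ Good S n ∧ q ^ 2 ∣ n)) := by
    ext n
    simp only [Finset.mem_filter, Finset.mem_union]
    have : q ^ 2 ∣ n → q ∣ n := fun h ↦ (dvd_pow_self q two_ne_zero).trans h
    tauto
  have d1 : Disjoint ((Finset.range ⌈x⌉₊).filter (fun n ↦ Good S n ∧ ¬ q ∣ n))
      ((Finset.range ⌈x⌉₊).filter (fun n ↦ Good S n ∧ q ^ 2 ∣ n)) := by
    rw [Finset.disjoint_left]
    intro n hn hn'
    simp only [Finset.mem_filter] at hn hn'
    exact hn.2.2 ((dvd_pow_self q two_ne_zero).trans hn'.2.2)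
  have e2 : ((Finset.range ⌈x⌉₊).filter (Good S)) =
      ((Finset.range ⌈x⌉₊).filter (fun n ↦ Good S n ∧ ¬ q ∣ n)) ∪
      ((Finset.range ⌈x⌉₊).filter (fun n ↦ Good S n ∧ q ∣ n)) := by
    ext n
    simp only [Finset.mem_filter, Finset.mem_union]
    tauto
  have d2 : Disjoint ((Finset.range ⌈x⌉₊).filter (fun n ↦ Good S n ∧ ¬ q ∣ n))
      ((Finset.range ⌈x⌉₊).filter (fun n ↦ Good S n ∧ q ∣ n)) := by
    rw [Finset.disjoint_left]
    intro n hn hn'
    simp only [Finset.mem_filter] at hn hn'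
    exact hn.2.2 hn'.2.2
  rw [e1, e2, Finset.card_union_of_disjoint d1, Finset.card_union_of_disjoint d2]
  ring

/-- the density -/
noncomputable def dens (S : Finset ℕ) : ℝ := ∏ p ∈ S, (1 - 1 / (p : ℝ) + 1 / (p : ℝ) ^ 2)

lemma cnt_approx (S : Finset ℕ) (hS : ∀ p ∈ S, p.Prime) :
    ∃ C : ℝ, ∀ x : ℝ, 0 ≤ x → |(cnt S x : ℝ) - dens S * x| ≤ C := by
  classical
  induction S using Finset.induction_on with
  | empty =>
    refine ⟨1, fun x hx ↦ ?_⟩
    have h0 : cnt ∅ x = ⌈x⌉₊ := by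
      unfold cnt
      rw [Finset.filter_true_of_mem]
      · simp
      · intro n _ p hp
        simp at hp
    rw [h0, dens, Finset.prod_empty, one_mul, abs_le]
    constructor
    · linarith [Nat.le_ceil x]
    · linarith [Nat.ceil_lt_add_one hx]
  | insert q S hqS ih =>
    obtain ⟨C, hC⟩ := ih (fun p hp ↦ hS p (Finset.mem_insert_of_mem hp))
    have hq : q.Prime := hS q (Finset.mem_insert_self q S)
    have hqR : (0 : ℝ) < q := by exact_mod_cast hq.pos
    refine ⟨3 * C, fun x hx ↦ ?_⟩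
    have h := cnt_insert hq (fun p hp ↦ hS p (Finset.mem_insert_of_mem hp)) hqS x
    have h' : (cnt (insert q S) x : ℝ) = cnt S x - cnt S (x / q) + cnt S (x / (q ^ 2 : ℕ)) := by
      have : ((cnt (insert q S) x + cnt S (x / q) : ℕ) : ℝ)
        = ((cnt S x + cnt S (x / (q ^ 2 : ℕ)) : ℕ) : ℝ) := by rw [h]
      push_cast at this ⊢
      linarith
    have hd : dens (insert q S) = (1 - 1 / (q : ℝ) + 1 / (q : ℝ) ^ 2) * dens S := by
      unfold dens
      rw [Finset.prod_insert hqS]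
    have a1 := hC x hx
    have a2 := hC (x / q) (by positivity)
    have a3 := hC (x / (q ^ 2 : ℕ)) (by positivity)
    rw [h', hd]
    have e : (cnt S x : ℝ) - cnt S (x / q) + cnt S (x / (q ^ 2 : ℕ))
        - (1 - 1 / (q : ℝ) + 1 / (q : ℝ) ^ 2) * dens S * x
        = ((cnt S x : ℝ) - dens S * x) - ((cnt S (x / q) : ℝ) - dens S * (x / q))
          + ((cnt S (x / (q ^ 2 : ℕ)) : ℝ) - dens S * (x / (q ^ 2 : ℕ))) := by
      push_cast
      field_simp
      ring
    rw [e]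
    calc _ ≤ |((cnt S x : ℝ) - dens S * x) - ((cnt S (x / q) : ℝ) - dens S * (x / q))|
          + |((cnt S (x / (q ^ 2 : ℕ)) : ℝ) - dens S * (x / (q ^ 2 : ℕ)))| := abs_add_le _ _
      _ ≤ (|((cnt S x : ℝ) - dens S * x)| + |((cnt S (x / q) : ℝ) - dens S * (x / q))|)
          + |((cnt S (x / (q ^ 2 : ℕ)) : ℝ) - dens S * (x / (q ^ 2 : ℕ)))| := by
          gcongr
          exact abs_sub _ _
      _ ≤ (C + C) + C := by gcongr
      _ = 3 * C := by ring

lemma dens_nonneg (S : Finset ℕ) (hS : ∀ p ∈ S, p.Prime) : 0 ≤ dens S := by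
  unfold dens
  refine Finset.prod_nonneg fun p hp ↦ ?_
  have h : (1 : ℝ) < p := by exact_mod_cast (hS p hp).one_lt
  have : 1 / (p : ℝ) ≤ 1 := by
    rw [div_le_one (by linarith)]; exact h.le
  have h2 : 0 ≤ 1 / (p : ℝ) ^ 2 := by positivity
  linarith

lemma dens_le_exp (S : Finset ℕ) (hS : ∀ p ∈ S, p.Prime) :
    dens S ≤ Real.exp (-(∑ p ∈ S, 1 / (p : ℝ)) / 2) := by
  have h1 : Real.exp (-(∑ p ∈ S, 1 / (p : ℝ)) / 2) = ∏ p ∈ S, Real.exp (-(1 / (p : ℝ)) / 2) := by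
    rw [← Real.exp_sum]
    congr 1
    rw [← Finset.sum_neg_distrib, Finset.sum_div]
  rw [h1]
  unfold dens
  refine Finset.prod_le_prod (fun p hp ↦ ?_) (fun p hp ↦ ?_)
  · have h : (1 : ℝ) < p := by exact_mod_cast (hS p hp).one_lt
    have : 1 / (p : ℝ) ≤ 1 := by
      rw [div_le_one (by linarith)]; exact h.le
    have h2 : 0 ≤ 1 / (p : ℝ) ^ 2 := by positivity
    linarith
  · have h : (2 : ℝ) ≤ p := by exact_mod_cast (hS p hp).two_le
    have h3 : 1 / (p : ℝ) ^ 2 ≤ 1 / (p : ℝ) / 2 := by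
      rw [div_div, div_le_div_iff_of_pos_left (by norm_num) (by positivity) (by positivity)]
      nlinarith
    have h4 := Real.add_one_le_exp (-(1 / (p : ℝ)) / 2)
    linarith

/-- sums of two squares are good for primes congruent to 3 modulo 4 -/
lemma good_of_sumsq {S : Finset ℕ} (hS : ∀ p ∈ S, p.Prime ∧ p % 4 = 3) {n : ℕ}
    (hn : ∃ x y : ℕ, n = x ^ 2 + y ^ 2) : Good S n := by
  intro p hp hpn
  obtain ⟨hpp, hp4⟩ := hS p hp
  rcases Nat.eq_zero_or_pos n with rfl | hn0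
  · exact dvd_zero _
  have hmem : p ∈ n.primeFactors := Nat.mem_primeFactors.2 ⟨hpp, hpn, hn0.ne'⟩
  have hev := Nat.eq_sq_add_sq_iff.1 hn p hmem hp4
  have : Fact p.Prime := ⟨hpp⟩
  have h1 : 1 ≤ padicValNat p n := one_le_padicValNat_of_dvd hn0.ne' hpn
  have h2 : 2 ≤ padicValNat p n := by
    rcases hev with ⟨r, hr⟩
    omega
  exact (padicValNat_dvd_iff_le hn0.ne').2 h2

open Classical in
/-- number of positive sums of two squares below N -/
noncomputable def sqCount (N : ℕ) : ℕ :=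
  ((Finset.range N).filter (fun n ↦ ∃ x y : ℕ, n = x ^ 2 + y ^ 2)).card

theorem sqCount_density :
    ∀ ε : ℝ, 0 < ε → ∃ C : ℝ, ∀ N : ℕ, (sqCount N : ℝ) ≤ ε * N + C := by
  classical
  intro ε hε
  -- choose a finite set with small density
  have hex : ∃ u : Finset ℕ, -2 * Real.log ε < ∑ n ∈ u, rec3 n := by
    by_contra hcon
    push Not at hcon
    exact not_summable_rec3 (summable_of_sum_le rec3_nonneg hcon)
  obtain ⟨u, hu⟩ := hex
  set S := u.filter (fun n ↦ n.Prime ∧ n % 4 = 3) with hSdef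
  have hS : ∀ p ∈ S, p.Prime ∧ p % 4 = 3 := fun p hp ↦ (Finset.mem_filter.1 hp).2
  have hsum : ∑ n ∈ u, rec3 n = ∑ p ∈ S, 1 / (p : ℝ) := by
    rw [hSdef, Finset.sum_filter]
    rfl
  have hdens : dens S ≤ ε := by
    refine (dens_le_exp S (fun p hp ↦ (hS p hp).1)).trans ?_
    rw [← hsum]
    calc Real.exp (-(∑ n ∈ u, rec3 n) / 2) ≤ Real.exp (Real.log ε) := by
          apply Real.exp_le_exp.2
          linarith
      _ = ε := Real.exp_log hε
  obtain ⟨C, hC⟩ := cnt_approx S (fun p hp ↦ (hS p hp).1)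
  refine ⟨C, fun N ↦ ?_⟩
  have h1 : sqCount N ≤ cnt S N := by
    unfold sqCount cnt
    rw [Nat.ceil_natCast]
    refine Finset.card_le_card ?_
    intro n hn
    rw [Finset.mem_filter] at hn ⊢
    exact ⟨hn.1, good_of_sumsq hS hn.2⟩
  have h2 := hC N (by positivity)
  have h3 : (cnt S N : ℝ) ≤ dens S * N + C := by
    linarith [(abs_le.1 h2).2]
  have h4 : (sqCount N : ℝ) ≤ cnt S N := by exact_mod_cast h1
  have h5 : dens S * (N : ℝ) ≤ ε * N := by gcongr
  linarith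

end Pool.Agent.Work.MP_3411af_co
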