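import Mathlib
import Pool.Agent.Work.MP_3411af_co.LineLower
import Pool.Agent.Work.MP_3411af_co.SumTwoSquaresDensity

set_option autoImplicit false

namespace Pool.Agent.Work.MP_3411af_co

open Set

/-- horizontal displacement along a circular arc -/
noncomputable def dx (p q s : ℝ) : ℝ := (2 * s / (1 + s ^ 2)) * (-q - s * p)
/-- vertical displacement along a circular arc -/
noncomputable def dy (p q s : ℝ) : ℝ := (2 * s / (1 + s ^ 2)) * (p - s * q)

lemma d_norm (p q s : ℝ) :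
    dx p q s ^ 2 + dy p q s ^ 2 = 4 * s ^ 2 * (p ^ 2 + q ^ 2) / (1 + s ^ 2) := by
  unfold dx dy
  have h : (1 + s ^ 2) ≠ 0 := by positivity
  field_simp
  ring

lemma d_circ (p q s : ℝ) :
    dx p q s ^ 2 + dy p q s ^ 2 + 2 * (dx p q s * p + dy p q s * q) = 0 := by
  unfold dx dy
  have h : (1 + s ^ 2) ≠ 0 := by positivity
  field_simp
  ring

lemma dx_zero (p q : ℝ) : dx p q 0 = 0 := by simp [dx]
lemma dy_zero (p q : ℝ) : dy p q 0 = 0 := by simp [dy]

lemma continuous_dx (p q : ℝ) : Continuous (dx p q) := by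
  unfold dx
  have h : ∀ s : ℝ, (1 + s ^ 2) ≠ 0 := fun s ↦ by positivity
  fun_prop (disch := exact h _)

lemma continuous_dy (p q : ℝ) : Continuous (dy p q) := by
  unfold dy
  have h : ∀ s : ℝ, (1 + s ^ 2) ≠ 0 := fun s ↦ by positivity
  fun_prop (disch := exact h _)

lemma d_norm_le {p q s δ R : ℝ} (hs : 0 ≤ s) (hsδ : s ≤ δ) (hR : p ^ 2 + q ^ 2 ≤ R) :
    dx p q s ^ 2 + dy p q s ^ 2 ≤ 4 * δ ^ 2 * R := by
  rw [d_norm, div_le_iff₀ (by positivity)]
  have h1 : s ^ 2 ≤ δ ^ 2 := by gcongr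
  have h2 : 0 ≤ p ^ 2 + q ^ 2 := by positivity
  have h3 : s ^ 2 * (p ^ 2 + q ^ 2) ≤ δ ^ 2 * R := mul_le_mul h1 hR h2 (by positivity)
  have h4 : 0 ≤ δ ^ 2 * R := le_trans (by positivity) h3
  nlinarith [sq_nonneg s, mul_nonneg h4 (sq_nonneg s)]

lemma d_inj {p q s s' : ℝ} (hs : 0 ≤ s) (hs' : 0 ≤ s') (hpq : 0 < p ^ 2 + q ^ 2)
    (h1 : dx p q s = dx p q s') (h2 : dy p q s = dy p q s') : s = s' := by
  have h3 : 4 * s ^ 2 * (p ^ 2 + q ^ 2) / (1 + s ^ 2)
      = 4 * s' ^ 2 * (p ^ 2 + q ^ 2) / (1 + s' ^ 2) := by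
    rw [← d_norm, ← d_norm, h1, h2]
  rw [div_eq_div_iff (by positivity) (by positivity)] at h3
  have h4 : (p ^ 2 + q ^ 2) * (s ^ 2 - s' ^ 2) = 0 := by linarith
  rcases mul_eq_zero.1 h4 with h5 | h5
  · exact absurd h5 hpq.ne'
  · have h6 : s ^ 2 = s' ^ 2 := by linarith
    exact (pow_left_inj₀ hs hs' two_ne_zero).1 h6

/-- two lattice circles through a lattice point meet again only far away -/
lemma meet_far {x y : ℝ} {p q p' q' : ℤ} (hne : p ≠ p' ∨ q ≠ q')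
    (h1 : x ^ 2 + y ^ 2 + 2 * (x * p + y * q) = 0)
    (h2 : x ^ 2 + y ^ 2 + 2 * (x * p' + y * q') = 0) :
    (x = 0 ∧ y = 0) ∨ 4 ≤ (x ^ 2 + y ^ 2) * (((p : ℝ) - p') ^ 2 + ((q : ℝ) - q') ^ 2) := by
  set a : ℝ := (p : ℝ) - p' with ha
  set b : ℝ := (q : ℝ) - q' with hb
  have hab : 0 < a ^ 2 + b ^ 2 := by
    rcases hne with h | h
    · have : a ≠ 0 := by
        rw [ha, sub_ne_zero]; exact_mod_cast h
      positivity
    · have : b ≠ 0 := by
        rw [hb, sub_ne_zero]; exact_mod_cast h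
      positivity
  have h3 : x * a + y * b = 0 := by
    rw [ha, hb]; linarith
  set m : ℝ := y * a - x * b with hm
  have h4 : (x ^ 2 + y ^ 2) * (a ^ 2 + b ^ 2) = m ^ 2 := by
    have : (x ^ 2 + y ^ 2) * (a ^ 2 + b ^ 2) = (x * a + y * b) ^ 2 + (y * a - x * b) ^ 2 := by ring
    rw [this, h3, hm]; ring
  set k : ℤ := q * (p - p') - p * (q - q') with hk
  have hkR : (k : ℝ) = q * a - p * b := by
    rw [hk, ha, hb]; push_cast; ring
  have h5 : (x * p + y * q) * (a ^ 2 + b ^ 2) = m * k := by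
    have : (x * p + y * q) * (a ^ 2 + b ^ 2)
        = (x * a + y * b) * (p * a + q * b) + (y * a - x * b) * (q * a - p * b) := by ring
    rw [this, h3, hkR, hm]; ring
  have h6 : m * (m + 2 * k) = 0 := by
    have h7 : (x ^ 2 + y ^ 2) * (a ^ 2 + b ^ 2) + 2 * ((x * p + y * q) * (a ^ 2 + b ^ 2)) = 0 := by
      have : (x ^ 2 + y ^ 2) * (a ^ 2 + b ^ 2) + 2 * ((x * p + y * q) * (a ^ 2 + b ^ 2))
        = (x ^ 2 + y ^ 2 + 2 * (x * p + y * q)) * (a ^ 2 + b ^ 2) := by ring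
      rw [this, h1]; ring
    rw [h4, h5] at h7
    linarith
  rcases mul_eq_zero.1 h6 with h7 | h7
  · left
    rw [h7] at h4
    have h8 : x ^ 2 + y ^ 2 = 0 := by
      rcases mul_eq_zero.1 (h4.trans (by norm_num)) with h | h
      · exact h
      · exact absurd h hab.ne'
    constructor
    · nlinarith [sq_nonneg x, sq_nonneg y]
    · nlinarith [sq_nonneg x, sq_nonneg y]
  · by_cases hk0 : k = 0
    · left
      rw [hk0] at h7
      simp only [Int.cast_zero, mul_zero, add_zero] at h7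
      rw [h7] at h4
      have h8 : x ^ 2 + y ^ 2 = 0 := by
        rcases mul_eq_zero.1 (h4.trans (by norm_num)) with h | h
        · exact h
        · exact absurd h hab.ne'
      constructor
      · nlinarith [sq_nonneg x, sq_nonneg y]
      · nlinarith [sq_nonneg x, sq_nonneg y]
    · right
      rw [h4]
      have h8 : m = -2 * k := by linarith
      rw [h8]
      have h9 : (1 : ℤ) ≤ k ^ 2 := by
        have := sq_pos_of_ne_zero hk0 |>.trans_le le_rfl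
        omega
      have h10 : (1 : ℝ) ≤ (k : ℝ) ^ 2 := by exact_mod_cast h9
      nlinarith

/-- index type of centres of stars -/
abbrev KK (t : ℕ) := Fin t × Fin t
/-- index type of circle centres -/
abbrev DD (t : ℕ) := Fin (2 * t) × Fin (2 * t)

/-- integer coordinates of the difference star centre minus circle centre -/
def v1 {t : ℕ} (P : KK t) (Q : DD t) : ℤ := (P.1 : ℤ) - (Q.1 : ℤ)
/-- second coordinate -/
def v2 {t : ℕ} (P : KK t) (Q : DD t) : ℤ := (P.2 : ℤ) + 1 + (Q.2 : ℤ)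

lemma v2_pos {t : ℕ} (P : KK t) (Q : DD t) : 0 < v2 P Q := by
  unfold v2; positivity

lemma v_norm_le {t : ℕ} (P : KK t) (Q : DD t) :
    ((v1 P Q : ℤ) : ℝ) ^ 2 + ((v2 P Q : ℤ) : ℝ) ^ 2 ≤ 13 * (t : ℝ) ^ 2 := by
  have h1 : (v1 P Q) ^ 2 + (v2 P Q) ^ 2 ≤ 13 * (t : ℤ) ^ 2 := by
    have a1 := P.1.isLt
    have a2 := P.2.isLt
    have a3 := Q.1.isLt
    have a4 := Q.2.isLt
    have b1 : v1 P Q ≤ 2 * t := by unfold v1; omega
    have b2 : -(2 * t : ℤ) ≤ v1 P Q := by unfold v1; omega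
    have b3 : v2 P Q ≤ 3 * t := by unfold v2; omega
    have b4 := v2_pos P Q
    nlinarith
  exact_mod_cast h1

/-- the point on the arc -/
noncomputable def arcPt {t : ℕ} (P : KK t) (Q : DD t) (s : ℝ) : E2 :=
  !₂[(P.1 : ℝ) + dx (v1 P Q) (v2 P Q) s, (P.2 : ℝ) + dy (v1 P Q) (v2 P Q) s]

/-- the star centre -/
noncomputable def cPt {t : ℕ} (P : KK t) : E2 := !₂[(P.1 : ℝ), (P.2 : ℝ)]

/-- circle centre -/
noncomputable def qPt {t : ℕ} (Q : DD t) : E2 := !₂[(Q.1 : ℝ), -(1 + (Q.2 : ℝ))]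

lemma arcPt_zero {t : ℕ} (P : KK t) (Q : DD t) : arcPt P Q 0 = cPt P := by
  simp [arcPt, cPt, dx_zero, dy_zero]

lemma continuous_arcPt {t : ℕ} (P : KK t) (Q : DD t) : Continuous (arcPt P Q) := by
  unfold arcPt
  have h1 := continuous_dx (v1 P Q) (v2 P Q)
  have h2 := continuous_dy (v1 P Q) (v2 P Q)
  refine (PiLp.continuous_toLp 2 _).comp ?_
  refine continuous_pi fun i ↦ ?_
  fin_cases i
  · exact (continuous_const.add h1 :
      Continuous fun a ↦ (P.1 : ℝ) + dx (v1 P Q) (v2 P Q) a)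
  · exact (continuous_const.add h2 :
      Continuous fun a ↦ (P.2 : ℝ) + dy (v1 P Q) (v2 P Q) a)

/-- maximal parameter -/
noncomputable def δ (t : ℕ) : ℝ := 1 / (20 * (t : ℝ) ^ 2)

lemma δ_pos {t : ℕ} (ht : 0 < t) : 0 < δ t := by
  unfold δ
  have : (0 : ℝ) < t := by exact_mod_cast ht
  positivity

lemma small {t : ℕ} (ht : 0 < t) (P : KK t) (Q : DD t) {s : ℝ} (hs : 0 ≤ s) (hsδ : s ≤ δ t) :
    dx (v1 P Q) (v2 P Q) s ^ 2 + dy (v1 P Q) (v2 P Q) s ^ 2 ≤ 52 / 400 / (t : ℝ) ^ 2 := by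
  have h := d_norm_le hs hsδ (v_norm_le P Q)
  refine h.trans (le_of_eq ?_)
  have : (0 : ℝ) < t := by exact_mod_cast ht
  unfold δ
  field_simp
  norm_num

/-- arcs at the same star centre on different circles only share that centre -/
lemma arcs_same {t : ℕ} (ht : 0 < t) (P : KK t) {Q Q' : DD t} (hQ : Q ≠ Q') {s s' : ℝ}
    (hs : 0 ≤ s) (hsδ : s ≤ δ t)
    (h : arcPt P Q s = arcPt P Q' s') : arcPt P Q s = cPt P := by
  have e0 : dx (v1 P Q) (v2 P Q) s = dx (v1 P Q') (v2 P Q') s' := by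
    have := congrArg (fun z : E2 ↦ z 0) h
    simpa [arcPt] using this
  have e1 : dy (v1 P Q) (v2 P Q) s = dy (v1 P Q') (v2 P Q') s' := by
    have := congrArg (fun z : E2 ↦ z 1) h
    simpa [arcPt] using this
  set x := dx (v1 P Q) (v2 P Q) s with hx
  set y := dy (v1 P Q) (v2 P Q) s with hy
  have c1 : x ^ 2 + y ^ 2 + 2 * (x * (v1 P Q : ℤ) + y * (v2 P Q : ℤ)) = 0 :=
    d_circ (v1 P Q) (v2 P Q) s
  have c2 : x ^ 2 + y ^ 2 + 2 * (x * (v1 P Q' : ℤ) + y * (v2 P Q' : ℤ)) = 0 := by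
    rw [e0, e1]; exact d_circ (v1 P Q') (v2 P Q') s'
  have hne : v1 P Q ≠ v1 P Q' ∨ v2 P Q ≠ v2 P Q' := by
    by_contra hcon
    push Not at hcon
    apply hQ
    unfold v1 v2 at hcon
    ext
    · have := hcon.1; omega
    · have := hcon.2; omega
  rcases meet_far hne c1 c2 with ⟨hx0, hy0⟩ | hfar
  · simp only [arcPt, cPt]
    rw [← hx, ← hy, hx0, hy0]
    simp
  · exfalso
    have hsm := small ht P Q hs hsδ
    have htR : (1 : ℝ) ≤ t := by exact_mod_cast ht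
    have hw : ((v1 P Q : ℤ) - (v1 P Q' : ℤ) : ℝ) ^ 2 + ((v2 P Q : ℤ) - (v2 P Q' : ℤ) : ℝ) ^ 2
        ≤ 8 * (t : ℝ) ^ 2 := by
      have : (v1 P Q - v1 P Q') ^ 2 + (v2 P Q - v2 P Q') ^ 2 ≤ 8 * (t : ℤ) ^ 2 := by
        have a3 := Q.1.isLt
        have a4 := Q.2.isLt
        have a5 := Q'.1.isLt
        have a6 := Q'.2.isLt
        have b1 : v1 P Q - v1 P Q' ≤ 2 * t := by unfold v1; omega
        have b2 : -(2 * t : ℤ) ≤ v1 P Q - v1 P Q' := by unfold v1; omega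
        have b3 : v2 P Q - v2 P Q' ≤ 2 * t := by unfold v2; omega
        have b4 : -(2 * t : ℤ) ≤ v2 P Q - v2 P Q' := by unfold v2; omega
        nlinarith
      exact_mod_cast this
    have h1 : (x ^ 2 + y ^ 2) * (((v1 P Q : ℤ) - (v1 P Q' : ℤ) : ℝ) ^ 2
        + ((v2 P Q : ℤ) - (v2 P Q' : ℤ) : ℝ) ^ 2) ≤ (52 / 400 / (t : ℝ) ^ 2) * (8 * (t : ℝ) ^ 2) :=
      mul_le_mul hsm hw (by positivity) (by positivity)
    have h2 : (52 / 400 / (t : ℝ) ^ 2) * (8 * (t : ℝ) ^ 2) = 52 / 50 := by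
      field_simp
      norm_num
    linarith

/-- arcs at different star centres are disjoint -/
lemma arcs_diff {t : ℕ} (ht : 0 < t) {P P' : KK t} (hP : P ≠ P') (Q Q' : DD t) {s s' : ℝ}
    (hs : 0 ≤ s) (hsδ : s ≤ δ t) (hs' : 0 ≤ s') (hsδ' : s' ≤ δ t) :
    arcPt P Q s ≠ arcPt P' Q' s' := by
  intro h
  have e0 : (P.1 : ℝ) + dx (v1 P Q) (v2 P Q) s = (P'.1 : ℝ) + dx (v1 P' Q') (v2 P' Q') s' := by
    have := congrArg (fun z : E2 ↦ z 0) h
    simpa [arcPt] using this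
  have e1 : (P.2 : ℝ) + dy (v1 P Q) (v2 P Q) s = (P'.2 : ℝ) + dy (v1 P' Q') (v2 P' Q') s' := by
    have := congrArg (fun z : E2 ↦ z 1) h
    simpa [arcPt] using this
  have hsm := small ht P Q hs hsδ
  have hsm' := small ht P' Q' hs' hsδ'
  set x := dx (v1 P Q) (v2 P Q) s
  set y := dy (v1 P Q) (v2 P Q) s
  set x' := dx (v1 P' Q') (v2 P' Q') s'
  set y' := dy (v1 P' Q') (v2 P' Q') s'
  have htR : (1 : ℝ) ≤ t := by exact_mod_cast ht
  have hb : 52 / 400 / (t : ℝ) ^ 2 ≤ 52 / 400 := by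
    apply div_le_self (by norm_num)
    nlinarith
  have hone : (1 : ℝ) ≤ ((P.1 : ℝ) - P'.1) ^ 2 + ((P.2 : ℝ) - P'.2) ^ 2 := by
    have : (1 : ℤ) ≤ ((P.1 : ℤ) - P'.1) ^ 2 + ((P.2 : ℤ) - P'.2) ^ 2 := by
      by_cases h1 : (P.1 : ℤ) = P'.1
      · have h2 : (P.2 : ℤ) ≠ P'.2 := by
          intro h2
          apply hP
          ext
          · exact_mod_cast h1
          · exact_mod_cast h2
        have h3 : (P.2 : ℤ) - P'.2 ≠ 0 := sub_ne_zero.2 h2
        have := sq_pos_of_ne_zero h3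
        nlinarith [sq_nonneg ((P.1 : ℤ) - P'.1)]
      · have h3 : (P.1 : ℤ) - P'.1 ≠ 0 := sub_ne_zero.2 h1
        have := sq_pos_of_ne_zero h3
        nlinarith [sq_nonneg ((P.2 : ℤ) - P'.2)]
    exact_mod_cast this
  have f0 : (P.1 : ℝ) - P'.1 = x' - x := by linarith
  have f1 : (P.2 : ℝ) - P'.2 = y' - y := by linarith
  rw [f0, f1] at hone
  nlinarith [sq_nonneg (x + x'), sq_nonneg (y + y')]

lemma arcPt_ne {t : ℕ} (P : KK t) (Q : DD t) {s s' : ℝ} (hs : 0 ≤ s) (hs' : 0 ≤ s')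
    (h : arcPt P Q s = arcPt P Q s') : s = s' := by
  have e0 : dx (v1 P Q) (v2 P Q) s = dx (v1 P Q) (v2 P Q) s' := by
    have := congrArg (fun z : E2 ↦ z 0) h
    simpa [arcPt] using this
  have e1 : dy (v1 P Q) (v2 P Q) s = dy (v1 P Q) (v2 P Q) s' := by
    have := congrArg (fun z : E2 ↦ z 1) h
    simpa [arcPt] using this
  refine d_inj hs hs' ?_ e0 e1
  have : (0 : ℝ) < (v2 P Q : ℤ) := by exact_mod_cast v2_pos P Q
  positivity

/-- squared radius -/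
def rsq {t : ℕ} (P : KK t) (Q : DD t) : ℕ := (v1 P Q).natAbs ^ 2 + (v2 P Q).natAbs ^ 2

lemma rsq_cast {t : ℕ} (P : KK t) (Q : DD t) :
    (rsq P Q : ℝ) = ((v1 P Q : ℤ) : ℝ) ^ 2 + ((v2 P Q : ℤ) : ℝ) ^ 2 := by
  have : ((rsq P Q : ℕ) : ℤ) = (v1 P Q) ^ 2 + (v2 P Q) ^ 2 := by
    unfold rsq; push_cast; rw [sq_abs, sq_abs]
  exact_mod_cast this

lemma arcPt_mem {t : ℕ} (P : KK t) (Q : DD t) (s : ℝ) :
    arcPt P Q s ∈ Metric.sphere (qPt Q) (Real.sqrt (rsq P Q)) := by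
  rw [Metric.mem_sphere, EuclideanSpace.dist_eq, Fin.sum_univ_two]
  congr 1
  rw [rsq_cast]
  have e0 : dist ((arcPt P Q s) 0) ((qPt Q) 0) ^ 2
      = (((v1 P Q : ℤ) : ℝ) + dx (v1 P Q) (v2 P Q) s) ^ 2 := by
    rw [Real.dist_eq, sq_abs]
    simp only [arcPt, qPt, v1]
    simp
    ring
  have e1 : dist ((arcPt P Q s) 1) ((qPt Q) 1) ^ 2
      = (((v2 P Q : ℤ) : ℝ) + dy (v1 P Q) (v2 P Q) s) ^ 2 := by
    rw [Real.dist_eq, sq_abs]
    simp only [arcPt, qPt, v2]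
    simp
    ring
  rw [e0, e1]
  have := d_circ (v1 P Q) (v2 P Q) s
  linarith

open Classical in
/-- the finite set of squared radii -/
noncomputable def SS (t : ℕ) : Finset ℕ :=
  (Finset.range (13 * t ^ 2 + 1)).filter (fun n ↦ 0 < n ∧ ∃ x y : ℕ, n = x ^ 2 + y ^ 2)

lemma rsq_mem {t : ℕ} (P : KK t) (Q : DD t) : rsq P Q ∈ SS t := by
  unfold SS
  rw [Finset.mem_filter, Finset.mem_range]
  refine ⟨?_, ?_, (v1 P Q).natAbs, (v2 P Q).natAbs, rfl⟩
  · have h1 := v_norm_le P Q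
    rw [← rsq_cast] at h1
    have h2 : rsq P Q ≤ 13 * t ^ 2 := by exact_mod_cast h1
    omega
  · have := v2_pos P Q
    unfold rsq
    have h3 : 0 < (v2 P Q).natAbs := Int.natAbs_pos.2 this.ne'
    positivity

lemma card_SS_le (t : ℕ) : (SS t).card ≤ sqCount (13 * t ^ 2 + 1) := by
  classical
  unfold SS sqCount
  refine Finset.card_le_card ?_
  intro n hn
  rw [Finset.mem_filter] at hn ⊢
  exact ⟨hn.1, hn.2.2⟩

/-- the position of the vertices -/
noncomputable def pos {t : ℕ} : KK t × Option (DD t) → E2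
  | (P, none) => cPt P
  | (P, some Q) => arcPt P Q (δ t)

/-- the arc as a set -/
def arcSet {t : ℕ} (P : KK t) (Q : DD t) : Set E2 := arcPt P Q '' Set.Icc 0 (δ t)

lemma cPt_mem {t : ℕ} (ht : 0 < t) (P : KK t) (Q : DD t) : cPt P ∈ arcSet P Q :=
  ⟨0, ⟨le_rfl, (δ_pos ht).le⟩, arcPt_zero P Q⟩

lemma leaf_mem {t : ℕ} (ht : 0 < t) (P : KK t) (Q : DD t) : arcPt P Q (δ t) ∈ arcSet P Q :=
  ⟨δ t, ⟨(δ_pos ht).le, le_rfl⟩, rfl⟩

lemma arcSet_inter_same {t : ℕ} (ht : 0 < t) (P : KK t) {Q Q' : DD t} (hQ : Q ≠ Q') {z : E2}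
    (h : z ∈ arcSet P Q) (h' : z ∈ arcSet P Q') : z = cPt P := by
  obtain ⟨s, hs, rfl⟩ := h
  obtain ⟨s', hs', he⟩ := h'
  exact arcs_same ht P hQ hs.1 hs.2 he.symm

lemma arcSet_inter_diff {t : ℕ} (ht : 0 < t) {P P' : KK t} (hP : P ≠ P') (Q Q' : DD t) {z : E2}
    (h : z ∈ arcSet P Q) (h' : z ∈ arcSet P' Q') : False := by
  obtain ⟨s, hs, rfl⟩ := h
  obtain ⟨s', hs', he⟩ := h'
  exact arcs_diff ht hP Q Q' hs.1 hs.2 hs'.1 hs'.2 he.symm

lemma leaf_ne {t : ℕ} (ht : 0 < t) (P : KK t) (Q : DD t) : arcPt P Q (δ t) ≠ cPt P := by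
  intro h
  rw [← arcPt_zero P Q] at h
  have := arcPt_ne P Q (δ_pos ht).le le_rfl h
  exact (δ_pos ht).ne' this

lemma pos_mem {t : ℕ} (ht : 0 < t) (v : KK t × Option (DD t)) (Q : DD t)
    (hQ : v.2 = none ∨ v.2 = some Q) : pos v ∈ arcSet v.1 Q := by
  obtain ⟨P, o⟩ := v
  rcases hQ with h | h
  · simp only at h
    subst h
    exact cPt_mem ht P Q
  · simp only at h
    subst h
    exact leaf_mem ht P Q

lemma DD_inhab {t : ℕ} (ht : 0 < t) : Nonempty (DD t) := ⟨(⟨0, by omega⟩, ⟨0, by omega⟩)⟩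

lemma pos_injective {t : ℕ} (ht : 0 < t) : Function.Injective (pos (t := t)) := by
  obtain ⟨Q0⟩ := DD_inhab ht
  rintro ⟨P, o⟩ ⟨P', o'⟩ h
  have hPP' : P = P' := by
    by_contra hne
    have h1 : pos (P, o) ∈ arcSet P (o.getD Q0) := by
      apply pos_mem ht (P, o)
      cases o <;> simp
    have h2 : pos (P', o') ∈ arcSet P' (o'.getD Q0) := by
      apply pos_mem ht (P', o')
      cases o' <;> simp
    rw [h] at h1
    exact arcSet_inter_diff ht hne _ _ h1 h2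
  subst hPP'
  cases o with
  | none =>
    cases o' with
    | none => rfl
    | some Q' => exact absurd h.symm (leaf_ne ht P Q')
  | some Q =>
    cases o' with
    | none => exact absurd h (leaf_ne ht P Q)
    | some Q' =>
      by_cases hQ : Q = Q'
      · rw [hQ]
      · exfalso
        have h1 : arcPt P Q (δ t) = arcPt P Q' (δ t) := h
        have h2 : arcPt P Q (δ t) ∈ arcSet P Q' := by rw [h1]; exact leaf_mem ht P Q'
        exact leaf_ne ht P Q (arcSet_inter_same ht P hQ (leaf_mem ht P Q) h2)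

/-- the path from the centre to the leaf -/
noncomputable def arcPath {t : ℕ} (P : KK t) (Q : DD t) : Path (cPt P) (arcPt P Q (δ t)) where
  toFun τ := arcPt P Q (δ t * (τ : ℝ))
  continuous_toFun := (continuous_arcPt P Q).comp (by fun_prop)
  source' := by simp [arcPt_zero]
  target' := by simp

lemma arcPath_injective {t : ℕ} (ht : 0 < t) (P : KK t) (Q : DD t) :
    Function.Injective (arcPath P Q) := by
  intro a b h
  have h' : arcPt P Q (δ t * (a : ℝ)) = arcPt P Q (δ t * (b : ℝ)) := h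
  have h1 := arcPt_ne P Q (mul_nonneg (δ_pos ht).le a.2.1) (mul_nonneg (δ_pos ht).le b.2.1) h'
  have h2 := mul_left_cancel₀ (δ_pos ht).ne' h1
  exact Subtype.ext h2

lemma arcPath_range {t : ℕ} (ht : 0 < t) (P : KK t) (Q : DD t) :
    Set.range (arcPath P Q) ⊆ arcSet P Q := by
  rintro _ ⟨τ, rfl⟩
  refine ⟨δ t * (τ : ℝ), ⟨mul_nonneg (δ_pos ht).le τ.2.1, ?_⟩, rfl⟩
  exact mul_le_of_le_one_right (δ_pos ht).le τ.2.2

/-- the circles -/
noncomputable def circ {t : ℕ} (i : DD t × {d : ℕ // d ∈ SS t}) : Set E2 :=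
  Metric.sphere (qPt i.1) (Real.sqrt i.2)

/-- the crossing-free circular-arc drawing -/
theorem circle_drawing {t : ℕ} (ht : 0 < t) :
    (∀ i : DD t × {d : ℕ // d ∈ SS t}, ∃ (c : E2) (r : ℝ), 0 < r ∧ circ i = Metric.sphere c r) ∧
    Function.Injective (pos (t := t)) ∧
    (∀ v : KK t × Option (DD t), ∃ i : DD t × {d : ℕ // d ∈ SS t}, pos v ∈ circ i) ∧
    ∃ γ : ∀ u v : KK t × Option (DD t), Path (pos u) (pos v),
      (∀ u v, (starGraph (KK t) (DD t)).Adj u v →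
        Function.Injective ⇑(γ u v) ∧
          ∃ i : DD t × {d : ℕ // d ∈ SS t}, Set.range ⇑(γ u v) ⊆ circ i) ∧
      (∀ u v w, (starGraph (KK t) (DD t)).Adj u v → w ≠ u → w ≠ v →
        pos w ∉ Set.range ⇑(γ u v)) ∧
      (∀ u v x y, (starGraph (KK t) (DD t)).Adj u v → (starGraph (KK t) (DD t)).Adj x y →
        s(u, v) ≠ s(x, y) →
        Set.range ⇑(γ u v) ∩ Set.range ⇑(γ x y) ⊆
          pos '' (({u, v} : Set (KK t × Option (DD t))) ∩ ({x, y} : Set _))) := by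
  obtain ⟨Q0⟩ := DD_inhab ht
  have harcsub : ∀ P Q, arcSet P Q ⊆ circ ((Q, ⟨rsq P Q, rsq_mem P Q⟩) : DD t × {d : ℕ // d ∈ SS t}) := by
    rintro P Q _ ⟨s, -, rfl⟩
    exact arcPt_mem P Q s
  -- description of the adjacent pairs
  have hadj : ∀ u v, (starGraph (KK t) (DD t)).Adj u v →
      ∃ P Q, (u = (P, none) ∧ v = (P, some Q)) ∨ (u = (P, some Q) ∧ v = (P, none)) := by
    rintro ⟨P, o⟩ ⟨P', o'⟩ ⟨h1, h2⟩
    simp only at h1 h2
    subst h1
    rcases h2 with ⟨h2, h3⟩ | ⟨h2, h3⟩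
    · obtain ⟨Q, rfl⟩ := Option.ne_none_iff_exists'.1 h3
      subst h2
      exact ⟨P, Q, Or.inl ⟨rfl, rfl⟩⟩
    · obtain ⟨Q, rfl⟩ := Option.ne_none_iff_exists'.1 h2
      subst h3
      exact ⟨P, Q, Or.inr ⟨rfl, rfl⟩⟩
  have hγ : ∀ u v : KK t × Option (DD t), ∃ γ : Path (pos u) (pos v),
      ∀ P Q, ((u = (P, none) ∧ v = (P, some Q)) ∨ (u = (P, some Q) ∧ v = (P, none))) →
        Function.Injective ⇑γ ∧ Set.range ⇑γ ⊆ arcSet P Q := by
    intro u v
    by_cases h : ∃ P Q, (u = (P, none) ∧ v = (P, some Q)) ∨ (u = (P, some Q) ∧ v = (P, none))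
    · obtain ⟨P, Q, h⟩ := h
      rcases h with ⟨rfl, rfl⟩ | ⟨rfl, rfl⟩
      · refine ⟨arcPath P Q, ?_⟩
        rintro P' Q' (⟨h1, h2⟩ | ⟨h1, h2⟩)
        · simp only [Prod.mk.injEq, Option.some.injEq, and_true] at h1 h2
          obtain ⟨-, rfl⟩ := h2
          subst h1
          exact ⟨arcPath_injective ht P Q, arcPath_range ht P Q⟩
        · simp at h1
      · refine ⟨(arcPath P Q).symm, ?_⟩
        rintro P' Q' (⟨h1, h2⟩ | ⟨h1, h2⟩)
        · simp at h1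
        · simp only [Prod.mk.injEq, Option.some.injEq, and_true] at h1 h2
          obtain ⟨rfl, rfl⟩ := h1
          refine ⟨?_, ?_⟩
          · intro a b hab
            have h3 : arcPath P Q (unitInterval.symm a) = arcPath P Q (unitInterval.symm b) := hab
            have h4 := arcPath_injective ht P Q h3
            exact unitInterval.symm_bijective.injective h4
          · have h5 : Set.range (arcPath P Q).symm = Set.range (arcPath P Q) := Path.symm_range _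
            exact h5.subset.trans (arcPath_range ht P Q)
    · refine ⟨(PathConnectedSpace.joined (pos u) (pos v)).somePath, ?_⟩
      intro P Q h'
      exact absurd ⟨P, Q, h'⟩ h
  choose γ hγ using hγ
  refine ⟨?_, pos_injective ht, ?_, γ, ?_, ?_, ?_⟩
  · rintro ⟨Q, d, hd⟩
    refine ⟨qPt Q, Real.sqrt d, ?_, rfl⟩
    have : 0 < d := by
      unfold SS at hd
      exact (Finset.mem_filter.1 hd).2.1
    have : (0 : ℝ) < d := by exact_mod_cast this
    exact Real.sqrt_pos.2 this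
  · rintro ⟨P, o⟩
    refine ⟨_, harcsub P (o.getD Q0) (pos_mem ht (P, o) (o.getD Q0) ?_)⟩
    cases o <;> simp
  · intro u v huv
    obtain ⟨P, Q, h⟩ := hadj u v huv
    obtain ⟨h1, h2⟩ := hγ u v P Q h
    exact ⟨h1, _, h2.trans (harcsub P Q)⟩
  · rintro u v ⟨P', o'⟩ huv hwu hwv hmem
    obtain ⟨P, Q, h⟩ := hadj u v huv
    obtain ⟨h1, h2⟩ := hγ u v P Q h
    have h3 := h2 hmem
    have h4 : pos (P', o') ∈ arcSet P' (o'.getD Q0) := by
      apply pos_mem ht (P', o')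
      cases o' <;> simp
    by_cases hPP' : P = P'
    · subst hPP'
      cases o' with
      | none =>
        rcases h with ⟨h5, h6⟩ | ⟨h5, h6⟩
        · exact hwu h5.symm
        · exact hwv h6.symm
      | some Q' =>
        have hQ : Q' ≠ Q := by
          rintro rfl
          rcases h with ⟨h5, h6⟩ | ⟨h5, h6⟩
          · exact hwv h6.symm
          · exact hwu h5.symm
        have h7 : arcPt P Q' (δ t) ∈ arcSet P Q := h3
        exact leaf_ne ht P Q' (arcSet_inter_same ht P hQ (leaf_mem ht P Q') h7)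
    · exact arcSet_inter_diff ht hPP' _ _ h3 h4
  · intro u v x y huv hxy hne z hz
    obtain ⟨P, Q, h⟩ := hadj u v huv
    obtain ⟨P', Q', h'⟩ := hadj x y hxy
    have h1 := (hγ u v P Q h).2 hz.1
    have h2 := (hγ x y P' Q' h').2 hz.2
    by_cases hPP' : P = P'
    · subst hPP'
      have hQ : Q ≠ Q' := by
        rintro rfl
        apply hne
        rcases h with ⟨rfl, rfl⟩ | ⟨rfl, rfl⟩ <;> rcases h' with ⟨rfl, rfl⟩ | ⟨rfl, rfl⟩
        · rfl
        · exact Sym2.eq_swap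
        · exact Sym2.eq_swap
        · rfl
      have h3 := arcSet_inter_same ht P hQ h1 h2
      refine ⟨(P, none), ⟨?_, ?_⟩, h3.symm⟩
      · rcases h with ⟨rfl, rfl⟩ | ⟨rfl, rfl⟩ <;> simp
      · rcases h' with ⟨rfl, rfl⟩ | ⟨rfl, rfl⟩ <;> simp
    · exact (arcSet_inter_diff ht hPP' _ _ h1 h2).elim

end Pool.Agent.Work.MP_3411af_co
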