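import Mathlib

/-!
The notions of the problem file: crossing-free drawings and the two cover numbers.
-/

set_option autoImplicit false

namespace Pool.Agent.Work.MP_3411af_co

/-- The plane. -/
abbrev Plane := EuclideanSpace ℝ (Fin 2)

/-- `A` is a simple arc with end points `x` and `y`. -/
def IsArc (A : Set Plane) (x y : Plane) : Prop :=
  ∃ γ : Path x y, Function.Injective γ ∧ Set.range γ = A

/-- `C` is a circle. -/
def IsCircle (C : Set Plane) : Prop :=
  ∃ (c : Plane) (r : ℝ), 0 < r ∧ C = Metric.sphere c r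

/-- `C` is a line. -/
def IsLine (C : Set Plane) : Prop :=
  ∃ x y : Plane, x ≠ y ∧ C = (line[ℝ, x, y] : AffineSubspace ℝ Plane)

/-- A crossing-free drawing of `G`: the vertex `v` is drawn as the point `p v`, the edge `e` as the set `A e`. -/
structure IsDrawing {V : Type*} (G : SimpleGraph V) (p : V → Plane) (A : Sym2 V → Set Plane) :
    Prop where
  vertices : Function.Injective p
  arcs : ∀ u v, G.Adj u v → IsArc (A s(u, v)) (p u) (p v)
  no_vertex : ∀ e ∈ G.edgeSet, ∀ w, p w ∈ A e → w ∈ e
  meet : ∀ e ∈ G.edgeSet, ∀ f ∈ G.edgeSet, e ≠ f → A e ∩ A f ⊆ p '' {w | w ∈ e ∧ w ∈ f}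

/-- The family `F` of curves covers the drawing. -/
def Covers {V : Type*} (G : SimpleGraph V) (p : V → Plane) (A : Sym2 V → Set Plane)
    (F : Set (Set Plane)) : Prop :=
  (∀ v, p v ∈ ⋃₀ F) ∧ ∀ e ∈ G.edgeSet, A e ⊆ ⋃₀ F

/-- The affine cover number: the least number of lines which cover some crossing-free straight-line drawing. -/
noncomputable def affineCoverNumber {V : Type*} (G : SimpleGraph V) : ℕ∞ :=
  sInf {k | ∃ (p : V → Plane) (A : Sym2 V → Set Plane) (F : Set (Set Plane)), IsDrawing G p A ∧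
    (∀ u v, G.Adj u v → A s(u, v) = segment ℝ (p u) (p v)) ∧
    (∀ C ∈ F, IsLine C) ∧ Covers G p A F ∧ F.encard = k}

/-- The spherical cover number: the least number of circles which cover some crossing-free circular-arc drawing. -/
noncomputable def sphericalCoverNumber {V : Type*} (G : SimpleGraph V) : ℕ∞ :=
  sInf {k | ∃ (p : V → Plane) (A : Sym2 V → Set Plane) (F : Set (Set Plane)), IsDrawing G p A ∧
    (∀ u v, G.Adj u v → (∃ C, IsCircle C ∧ A s(u, v) ⊆ C) ∨
      A s(u, v) = segment ℝ (p u) (p v)) ∧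
    (∀ C ∈ F, IsCircle C) ∧ Covers G p A F ∧ F.encard = k}

end Pool.Agent.Work.MP_3411af_co
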