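import Pool.Agent.Work.MP_3411af_co.CircleUpper
import Pool.Agent.Work.MP_3411af_co.TwinDefs

set_option autoImplicit false

namespace Pool.Agent.Work.MP_3411af_co

open Set

theorem edge_star {K D : Type} {e : Sym2 (K × Option D)} (he : e ∈ (starGraph K D).edgeSet) :
    ∃ P Q, e = s((P, none), (P, some Q)) := by
  induction e using Sym2.ind with
  | _ u v =>
    obtain ⟨P, o⟩ := u
    obtain ⟨P', o'⟩ := v
    rw [SimpleGraph.mem_edgeSet] at he
    obtain ⟨h1, h2⟩ := he
    simp only at h1 h2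
    subst h1
    rcases h2 with ⟨h3, h4⟩ | ⟨h3, h4⟩
    · subst h3
      obtain ⟨Q, rfl⟩ := Option.ne_none_iff_exists'.1 h4
      exact ⟨P, Q, rfl⟩
    · subst h4
      obtain ⟨Q, rfl⟩ := Option.ne_none_iff_exists'.1 h3
      exact ⟨P, Q, Sym2.eq_swap⟩

theorem star_adj {K D : Type} (P : K) (Q : D) :
    (starGraph K D).Adj (P, none) (P, some Q) := ⟨rfl, Or.inl ⟨rfl, by simp⟩⟩

/-! ### Lower bound -/

theorem segment_subset_line {F : Set (Set Plane)} (hfin : F.Finite) (hF : ∀ C ∈ F, IsLine C)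
    {u v : Plane} (huv : u ≠ v) (hsub : segment ℝ u v ⊆ ⋃₀ F) : ∃ C ∈ F, segment ℝ u v ⊆ C := by
  have hinj : Function.Injective (AffineMap.lineMap (k := ℝ) u v) :=
    AffineMap.lineMap_injective ℝ huv
  have hinf : (segment ℝ u v).Infinite := by
    rw [segment_eq_image_lineMap]
    exact (Icc_infinite one_pos).image hinj.injOn
  obtain ⟨C, hC, hCinf⟩ : ∃ C ∈ F, (segment ℝ u v ∩ C).Infinite := by
    by_contra hcon
    push Not at hcon
    apply hinf
    have h1 : segment ℝ u v ⊆ ⋃ C ∈ F, segment ℝ u v ∩ C := by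
      intro x hx
      obtain ⟨C, hC, hxC⟩ := hsub hx
      exact mem_iUnion₂.2 ⟨C, hC, hx, hxC⟩
    exact (hfin.biUnion fun C hC => hcon C hC).subset h1
  obtain ⟨x, hx, y, hy, hxy⟩ := hCinf.nontrivial
  obtain ⟨a, b, hab, rfl⟩ := hF C hC
  refine ⟨_, hC, ?_⟩
  obtain ⟨hx1, hx2⟩ := hx
  obtain ⟨hy1, hy2⟩ := hy
  rw [segment_eq_image_lineMap] at hx1 hy1
  obtain ⟨r, -, rfl⟩ := hx1
  obtain ⟨s, -, rfl⟩ := hy1
  have hrs : r - s ≠ 0 := fun h => hxy (by rw [sub_eq_zero.1 h])
  have hrs' : s - r ≠ 0 := fun h => hrs (by linarith)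
  have hu : u ∈ line[ℝ, a, b] := by
    have h := AffineMap.lineMap_mem (r / (r - s)) hx2 hy2
    have h2 : AffineMap.lineMap (AffineMap.lineMap (k := ℝ) u v r)
        (AffineMap.lineMap (k := ℝ) u v s) (r / (r - s)) = u := by
      simp only [AffineMap.lineMap_apply, vsub_eq_sub, vadd_eq_add, add_sub_add_right_eq_sub]
      rw [← sub_smul, smul_smul, ← add_assoc, ← add_smul]
      have : r / (r - s) * (s - r) + r = 0 := by
        field_simp
        ring
      rw [this, zero_smul, zero_add]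
    rwa [h2] at h
  have hv : v ∈ line[ℝ, a, b] := by
    have h := AffineMap.lineMap_mem ((1 - r) / (s - r)) hx2 hy2
    have h2 : AffineMap.lineMap (AffineMap.lineMap (k := ℝ) u v r)
        (AffineMap.lineMap (k := ℝ) u v s) ((1 - r) / (s - r)) = v := by
      simp only [AffineMap.lineMap_apply, vsub_eq_sub, vadd_eq_add, add_sub_add_right_eq_sub]
      rw [← sub_smul, smul_smul, ← add_assoc, ← add_smul]
      have : (1 - r) / (s - r) * (s - r) + r = 1 := by
        rw [div_mul_cancel₀ _ hrs']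
        ring
      rw [this, one_smul, sub_add_cancel]
    rwa [h2] at h
  exact (line[ℝ, a, b]).convex.segment_subset hu hv

theorem affine_ge (t : ℕ) : ((t ^ 4 : ℕ) : ℕ∞) ≤ affineCoverNumber (starGraph (KK t) (DD t)) := by
  classical
  refine le_sInf ?_
  rintro _ ⟨p, A, F, hd, hs, hF, hc, rfl⟩
  by_cases hfin : F.Finite
  · obtain ⟨k, hk⟩ : ∃ k : ℕ, k = hfin.toFinset.card := ⟨_, rfl⟩
    have hcard : F.encard = k := by
      rw [hfin.encard_eq_coe_toFinset_card, hk]
    let f : Fin k ≃ hfin.toFinset := (Fin.castOrderIso hk).toEquiv.trans hfin.toFinset.equivFin.symm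
    have hL : ∀ i, (f i : Set Plane) ∈ F := fun i => hfin.mem_toFinset.1 (f i).2
    have key := line_lower (K := KK t) (D := DD t) (fun i => (f i : Set Plane))
      (fun i => hF _ (hL i)) p hd.vertices ?_ ?_
    · simp only [KK, DD, Fintype.card_prod, Fintype.card_fin] at key
      rw [hcard]
      have : t ^ 4 ≤ k := by
        have e1 : t * t * (2 * t * (2 * t)) = 4 * t ^ 4 := by ring
        have e2 : t * t * (t * t) = t ^ 4 := by ring
        rw [e1, e2] at key
        omega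
      exact_mod_cast this
    · intro P Q
      have hne : p (P, none) ≠ p (P, some Q) := fun h => by
        have := hd.vertices h
        simp at this
      have hsub := hc.2 s((P, none), (P, some Q)) (star_adj P Q)
      rw [hs _ _ (star_adj P Q)] at hsub
      obtain ⟨C, hC, hsC⟩ := segment_subset_line hfin hF hne hsub
      refine ⟨f.symm ⟨C, hfin.mem_toFinset.2 hC⟩, ?_⟩
      rw [Equiv.apply_symm_apply]
      exact hsC
    · intro P Q Q' hQ hmem
      rw [← hs _ _ (star_adj P Q)] at hmem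
      have := hd.no_vertex _ (star_adj P Q) _ hmem
      rw [Sym2.mem_iff] at this
      rcases this with h | h
      · simp at h
      · exact hQ (by simpa using h)
  · rw [Set.encard_eq_top_iff.2 hfin]
    exact le_top

/-! ### Upper bound for circles -/

theorem spherical_le {t : ℕ} (ht : 0 < t) : sphericalCoverNumber (starGraph (KK t) (DD t)) ≤
    ((4 * t ^ 2 * (SS t).card : ℕ) : ℕ∞) := by
  classical
  obtain ⟨hc1, hinj, hcov, γ, hγ1, hγ2, hγ3⟩ := circle_drawing ht
  have hex : ∀ e : Sym2 (KK t × Option (DD t)), ∃ u v, e = s(u, v) := by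
    intro e
    induction e using Sym2.ind with
    | _ u v => exact ⟨u, v, rfl⟩
  choose f g hfg using hex
  have hadj : ∀ e ∈ (starGraph (KK t) (DD t)).edgeSet, (starGraph (KK t) (DD t)).Adj (f e) (g e) := by
    intro e he
    rw [hfg e] at he
    exact he
  have hcard : (range (circ (t := t))).encard ≤ ((4 * t ^ 2 * (SS t).card : ℕ) : ℕ∞) := by
    rw [← image_univ]
    refine (encard_image_le _ _).trans ?_
    rw [encard_univ]
    have : Fintype.card (DD t × {d : ℕ // d ∈ SS t}) = 4 * t ^ 2 * (SS t).card := by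
      simp only [DD, Fintype.card_prod, Fintype.card_fin, Fintype.card_coe]
      ring
    rw [ENat.card_eq_coe_fintype_card, this]
  refine le_trans (sInf_le ⟨pos, fun e => range (γ (f e) (g e)), range (circ (t := t)),
    ⟨hinj, ?_, ?_, ?_⟩, ?_, ?_, ⟨?_, ?_⟩, rfl⟩) hcard
  · intro u v huv
    have h1 := hfg s(u, v)
    rw [Sym2.eq_iff] at h1
    have h2 := (hγ1 _ _ (hadj s(u, v) ((SimpleGraph.mem_edgeSet _).2 huv))).1
    rcases h1 with ⟨h3, h4⟩ | ⟨h3, h4⟩
    · rw [← h3, ← h4] at h2 ⊢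
      exact ⟨_, h2, rfl⟩
    · rw [← h3, ← h4] at h2 ⊢
      refine ⟨(γ v u).symm, ?_, ?_⟩
      · intro x y hxy
        have h5 : unitInterval.symm x = unitInterval.symm y := h2 hxy
        exact unitInterval.symm_bijective.injective h5
      · rw [Path.symm_range]
  · intro e he w hw
    by_contra hcon
    have h1 : w ≠ f e := fun h => hcon (by rw [hfg e, h]; exact Sym2.mem_mk_left _ _)
    have h2 : w ≠ g e := fun h => hcon (by rw [hfg e, h]; exact Sym2.mem_mk_right _ _)
    exact hγ2 _ _ w (hadj e he) h1 h2 hw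
  · intro e he e' he' hne z hz
    have h1 : s(f e, g e) ≠ s(f e', g e') := by rw [← hfg, ← hfg]; exact hne
    obtain ⟨w, ⟨hw1, hw2⟩, rfl⟩ := hγ3 _ _ _ _ (hadj e he) (hadj e' he') h1 hz
    refine ⟨w, ⟨?_, ?_⟩, rfl⟩
    · rw [hfg e, Sym2.mem_iff]
      simpa using hw1
    · rw [hfg e', Sym2.mem_iff]
      simpa using hw2
  · intro u v huv
    obtain ⟨i, hi⟩ := (hγ1 _ _ (hadj s(u, v) ((SimpleGraph.mem_edgeSet _).2 huv))).2
    exact Or.inl ⟨circ i, hc1 i, hi⟩
  · rintro _ ⟨i, rfl⟩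
    exact hc1 i
  · intro v
    obtain ⟨i, hi⟩ := hcov v
    exact ⟨_, ⟨i, rfl⟩, hi⟩
  · intro e he z hz
    obtain ⟨i, hi⟩ := (hγ1 _ _ (hadj e he)).2
    exact ⟨_, ⟨i, rfl⟩, hi hz⟩

/-! ### The affine cover number is finite -/

theorem isArc_segment {x y : Plane} (h : x ≠ y) : IsArc (segment ℝ x y) x y := by
  refine ⟨⟨⟨fun t => AffineMap.lineMap (k := ℝ) x y (t : ℝ), ?_⟩, ?_, ?_⟩, ?_, ?_⟩
  · exact (AffineMap.lineMap_continuous).comp continuous_subtype_val
  · simp
  · simp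
  · intro s t hst
    exact Subtype.ext (AffineMap.lineMap_injective ℝ h hst)
  · rw [segment_eq_image_lineMap]
    ext z
    constructor
    · rintro ⟨t, rfl⟩
      exact ⟨t, t.2, rfl⟩
    · rintro ⟨t, ht, rfl⟩
      exact ⟨⟨t, ht⟩, rfl⟩

section draw

variable {K D : Type} (κ : K → ℕ) (δ : D → ℝ)

/-- the straight-line drawing -/
noncomputable def ps : K × Option D → Plane
  | (P, none) => !₂[0, (κ P : ℝ)]
  | (P, some Q) => !₂[1, κ P + δ Q]

theorem mem_seg {P : K} {Q : D} {z : Plane}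
    (hz : z ∈ segment ℝ (ps κ δ (P, none)) (ps κ δ (P, some Q))) :
    ∃ t : ℝ, 0 ≤ t ∧ t ≤ 1 ∧ z 0 = t ∧ z 1 = κ P + t * δ Q := by
  rw [segment_eq_image_lineMap] at hz
  obtain ⟨t, ht, rfl⟩ := hz
  refine ⟨t, ht.1, ht.2, ?_, ?_⟩
  · simp [ps, AffineMap.lineMap_apply]
  · simp [ps, AffineMap.lineMap_apply]
    ring

end draw

theorem affine_lt_top {K D : Type} [Finite K] [Finite D] [Nonempty D] :
    affineCoverNumber (starGraph K D) ≠ ⊤ := by
  classical
  obtain ⟨M, ⟨eD⟩⟩ := Finite.exists_equiv_fin D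
  obtain ⟨M', ⟨eK⟩⟩ := Finite.exists_equiv_fin K
  obtain ⟨κ, hκ⟩ : ∃ κ : K → ℕ, Function.Injective κ :=
    ⟨fun P => eK P, fun P P' h => eK.injective (Fin.ext h)⟩
  obtain ⟨δ, hδ, hδ0, hδ1⟩ : ∃ δ : D → ℝ, Function.Injective δ ∧ (∀ Q, 0 < δ Q) ∧
      ∀ Q, δ Q < 1 := by
    have hM : (0 : ℝ) < M + 1 := by positivity
    refine ⟨fun Q => ((eD Q : ℕ) + 1 : ℝ) / (M + 1), ?_, ?_, ?_⟩
    · intro Q Q' h
      have h1 : ((eD Q : ℕ) + 1 : ℝ) = (eD Q' : ℕ) + 1 := by
        have h2 : ((eD Q : ℕ) + 1 : ℝ) / (M + 1) = ((eD Q' : ℕ) + 1 : ℝ) / (M + 1) := h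
        field_simp at h2
        linarith
      have h3 : (eD Q : ℕ) = eD Q' := by exact_mod_cast add_right_cancel h1
      exact eD.injective (Fin.ext h3)
    · intro Q
      positivity
    · intro Q
      rw [div_lt_one hM]
      have : ((eD Q : ℕ) : ℝ) < M := by exact_mod_cast (eD Q).2
      linarith
  have hps : ∀ u v : K × Option D, ps κ δ u = ps κ δ v → u = v := by
    have hk : ∀ P P' : K, ∀ a b : ℝ, 0 ≤ a → a < 1 → 0 ≤ b → b < 1 →
        (κ P : ℝ) + a = κ P' + b → κ P = κ P' := by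
      intro P P' a b ha0 ha1 hb0 hb1 h
      have h1 : (κ P : ℝ) < κ P' + 1 := by linarith
      have h2 : (κ P' : ℝ) < κ P + 1 := by linarith
      have h1' : κ P < κ P' + 1 := by exact_mod_cast h1
      have h2' : κ P' < κ P + 1 := by exact_mod_cast h2
      omega
    rintro ⟨P, o⟩ ⟨P', o'⟩ h
    have h0 := congrArg (fun z : Plane => z 0) h
    have h1 := congrArg (fun z : Plane => z 1) h
    rcases o with _ | Q <;> rcases o' with _ | Q'
    · simp [ps] at h1
      rw [hκ h1]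
    · simp [ps] at h0
    · simp [ps] at h0
    · simp [ps] at h1
      have h2 := hk P P' _ _ (hδ0 Q).le (hδ1 Q) (hδ0 Q').le (hδ1 Q') h1
      rw [h2] at h1
      have h3 : δ Q = δ Q' := by linarith
      rw [hκ h2, hδ h3]
  have hne : ∀ u v, (starGraph K D).Adj u v → ps κ δ u ≠ ps κ δ v := fun u v huv h =>
    huv.ne (hps u v h)
  let A : Sym2 (K × Option D) → Set Plane := Sym2.lift
    ⟨fun u v => segment ℝ (ps κ δ u) (ps κ δ v), fun u v => segment_symm _ _ _⟩
  have hA : ∀ u v, A s(u, v) = segment ℝ (ps κ δ u) (ps κ δ v) := fun u v => rfl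
  let L : Sym2 (K × Option D) → Set Plane := Sym2.lift
    ⟨fun u v => ((line[ℝ, ps κ δ u, ps κ δ v] : AffineSubspace ℝ Plane) : Set Plane),
      fun u v => by dsimp only; rw [Set.pair_comm]⟩
  have hLl : ∀ u v, L s(u, v) =
      ((line[ℝ, ps κ δ u, ps κ δ v] : AffineSubspace ℝ Plane) : Set Plane) := fun u v => rfl
  have hfin : (L '' (starGraph K D).edgeSet).Finite := (Set.toFinite _).image _
  have hcov : ∀ e ∈ (starGraph K D).edgeSet, A e ⊆ L e := by
    intro e he
    obtain ⟨P, Q, rfl⟩ := edge_star he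
    rw [hA, hLl]
    exact (line[ℝ, ps κ δ (P, none), ps κ δ (P, some Q)]).convex.segment_subset
      (left_mem_affineSpan_pair _ _ _) (right_mem_affineSpan_pair _ _ _)
  refine ne_top_of_le_ne_top (Set.encard_ne_top_iff.2 hfin)
    (sInf_le ⟨ps κ δ, A, L '' (starGraph K D).edgeSet, ⟨fun u v h => hps u v h, ?_, ?_, ?_⟩,
      fun u v _ => rfl, ?_, ⟨?_, ?_⟩, rfl⟩)
  · intro u v huv
    rw [hA]
    exact isArc_segment (hne u v huv)
  · intro e he w hw
    obtain ⟨P, Q, rfl⟩ := edge_star he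
    rw [hA] at hw
    obtain ⟨t, ht0, ht1, h0, h1⟩ := mem_seg κ δ hw
    obtain ⟨P', o⟩ := w
    have : ps κ δ (P', o) = ps κ δ (P, none) ∨ ps κ δ (P', o) = ps κ δ (P, some Q) := by
      rcases o with _ | Q'
      · left
        have ht : t = 0 := by rw [← h0]; simp [ps]
        rw [ht] at h1
        ext i
        fin_cases i
        · simp [ps]
        · simpa [ps] using h1
      · right
        have ht : t = 1 := by rw [← h0]; simp [ps]
        rw [ht] at h1
        ext i
        fin_cases i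
        · simp [ps]
        · simpa [ps] using h1
    rcases this with h | h
    · rw [hps _ _ h]
      exact Sym2.mem_mk_left _ _
    · rw [hps _ _ h]
      exact Sym2.mem_mk_right _ _
  · intro e he e' he' hee z hz
    obtain ⟨P, Q, rfl⟩ := edge_star he
    obtain ⟨P', Q', rfl⟩ := edge_star he'
    obtain ⟨hz1, hz2⟩ := hz
    rw [hA] at hz1 hz2
    obtain ⟨t, ht0, ht1, h0, h1⟩ := mem_seg κ δ hz1
    obtain ⟨t', -, -, h0', h1'⟩ := mem_seg κ δ hz2
    have htt : t' = t := by rw [← h0, ← h0']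
    rw [htt, h1] at h1'
    have ha : t * δ Q ≤ t * 1 := mul_le_mul_of_nonneg_left (hδ1 Q).le ht0
    have hb : t * δ Q' ≤ t * 1 := mul_le_mul_of_nonneg_left (hδ1 Q').le ht0
    have ha0 : 0 ≤ t * δ Q := mul_nonneg ht0 (hδ0 Q).le
    have hb0 : 0 ≤ t * δ Q' := mul_nonneg ht0 (hδ0 Q').le
    have hlt : t * δ Q < 1 ∧ t * δ Q' < 1 := by
      rcases eq_or_lt_of_le ht0 with h | h
      · rw [← h]
        norm_num
      · have h3 : t * δ Q < t * 1 := mul_lt_mul_of_pos_left (hδ1 Q) h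
        have h4 : t * δ Q' < t * 1 := mul_lt_mul_of_pos_left (hδ1 Q') h
        constructor <;> linarith
    have hκκ : κ P = κ P' := by
      have h2 : (κ P : ℝ) < κ P' + 1 := by linarith
      have h3 : (κ P' : ℝ) < κ P + 1 := by linarith
      have h2' : κ P < κ P' + 1 := by exact_mod_cast h2
      have h3' : κ P' < κ P + 1 := by exact_mod_cast h3
      omega
    have hPP : P = P' := hκ hκκ
    subst hPP
    have hQQ : Q ≠ Q' := fun h => hee (by rw [h])
    have h5 : t * (δ Q - δ Q') = 0 := by linarith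
    have h6 : t = 0 := by
      rcases mul_eq_zero.1 h5 with h | h
      · exact h
      · exact absurd (hδ (sub_eq_zero.1 h)) hQQ
    refine ⟨(P, none), ⟨Sym2.mem_mk_left _ _, Sym2.mem_mk_left _ _⟩, ?_⟩
    rw [h6] at h0 h1
    ext i
    fin_cases i
    · simp [ps, h0]
    · simp [ps, h1]
  · rintro _ ⟨e, he, rfl⟩
    obtain ⟨P, Q, rfl⟩ := edge_star he
    exact ⟨_, _, hne _ _ (star_adj P Q), rfl⟩
  · rintro ⟨P, o⟩
    obtain ⟨Q0⟩ := ‹Nonempty D›
    rcases o with _ | Q
    · exact ⟨_, ⟨s((P, none), (P, some Q0)), star_adj P Q0, rfl⟩,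
        left_mem_affineSpan_pair _ _ _⟩
    · exact ⟨_, ⟨s((P, none), (P, some Q)), star_adj P Q, rfl⟩,
        right_mem_affineSpan_pair _ _ _⟩
  · intro e he z hz
    exact ⟨L e, ⟨e, he, rfl⟩, hcov e he hz⟩

end Pool.Agent.Work.MP_3411af_co
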